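import Pool.Agent.Lib_MP_e0a489.TPdefs
import Pool.Agent.Lib_MP_e0a489_m.G37

/-!
# MP_e0a489_pr, Q1: polynomial clustering of the spectral sample of square crossings

For critical bond percolation on `ℤ²` (`SCTop.Q1Z2`) and for critical site percolation on the triangular
lattice (`SCTop.Q1T`) there is a finite constant `C` such that for every `n ≥ 1` and all real `1 ≤ r ≤ r₀`
the spectral sample `S` of the crossing indicator `g_n` satisfies
`P(|S| < r² α₄(r) and diam S ≥ r₀) ≤ C Φ(r, n)² Φ(r, r₀)²`, `Φ(a, b) = (b / a) α₄(a, b)`.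
(For `r > n`, where `α₄(r, n)` is not defined, `Φ(r, n)` is read as `n / r`.)  All definitions of the statement are in
`Pool/Agent/Lib_MP_e0a489/TPdefs.lean`.
-/

set_option autoImplicit false

/-- Q1 is true on both lattices. -/
theorem Pool.Agent.Results.MP_e0a489_pr.SpectralClustering.result : SCTop.Q1Z2 ∧ SCTop.Q1T :=
  ⟨SC.q1z2, SC.q1t⟩
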